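import Mathlib
import Pool.Agent.H76.CMCDefs
import Pool.Agent.H76.CMCMain

set_option autoImplicit false

/-!
A CMC foliation of a simply connected three-dimensional metric Lie group that is not a product
foliation.

The group is `ℝ² ⋊ ℝ` for `A = diag(5,-1)`, with the metric
`exp(-10z) dx² + exp(2z) dy² + dz²`.  The foliation is invariant under translations in `x`; its
leaves are the connected components of the level sets of `f(x,y,z) = φ(y, exp(-z))`, and the mean
curvature of a leaf is `2f`, which takes values in `(1,2)`.  In the half plane with coordinates
`y` and `η = exp(-z)` the level curves of `φ` of level `h ≥ 3/4` are pairs of rays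
`|y| = F(h) η`, `F(u) = u/√(1-u²)`, and those of level `h` in `(1/2, 3/4)` are single curves
`|y| = η R(h, σ(h)/η)`, `η ≥ σ(h)`, with `R(h,ρ) = ρ ∫_ρ^1 F(h+(1-h)r⁴) r⁻² dr` and `σ` smooth,
decreasing, infinite at `1/2` and flat at `3/4`.  So the two rays of level `3/4` are two leaves
that cannot be separated in the leaf space.
-/

namespace Pool.Agent.Results.MP_c71f82_gt.BranchingCMCFoliation

open Pool.H76.CMC

/-- Some simply connected three-dimensional metric Lie group (diffeomorphic to `ℝ³`) has a smooth
CMC foliation that is not a product foliation by planes, not even up to homeomorphism. -/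
theorem result :
    ∃ (X : MetricLieGroup) (f : R3 → ℝ), IsCMCFoliation X f ∧ ¬ IsTopologicalProduct f :=
  ⟨XG, fG, isCMCFoliation_fG, not_topologicalProduct⟩

end Pool.Agent.Results.MP_c71f82_gt.BranchingCMCFoliation
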